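import Mathlib

set_option autoImplicit false
open Finset Filter Topology

namespace Pool.Agent.H.MP_e2735d_co

def D : List ℤ := [1, -1, 3, -3, 4, -4]

theorem fin : ∀ a ∈ D, ∀ b ∈ D, ∀ c ∈ D, a + b + c ∈ D → ∀ d ∈ D, b + c + d ∈ D → a + b + c + d ∈ D →
    ∀ e ∈ D, c + d + e ∈ D → b + c + d + e ∈ D → ∀ f ∈ D, d + e + f ∈ D → c + d + e + f ∈ D →
      b = a ∧ (a = 1 ∨ a = -1) := by decide +kernel

theorem D_bd : ∀ a ∈ D, |a| ≤ 4 ∧ a ≠ 0 ∧ -a ∈ D := by decide

theorem lift {m : ℕ} (hm : 20 < m) {a b : ℤ} (h : (a : ZMod m) = b) (l : |a| ≤ 16) (k : |b| ≤ 4) :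
    a = b := by
  have := Int.eq_zero_of_abs_lt_dvd ((ZMod.intCast_eq_intCast_iff_dvd_sub _ _ _).1 h)
    (by rw [abs_le] at l k; rw [abs_lt]; omega)
  omega

theorem rig {m : ℕ} (hm : 20 < m) (g : ℕ → ZMod m)
    (h : ∀ i, ∀ s ∈ [1, 3, 4], ∃ d ∈ D, g (i + s) = g i + d) : ∃ e : ℤˣ, ∀ i, g i = e * i + g 0 := by
  choose d h1 h2 using fun i => h i 1 (by simp)
  have b := fun i => abs_le.1 (D_bd _ (h1 i)).1
  have t3 : ∀ i, d i + d (i + 1) + d (i + 2) ∈ D := fun i => by
    obtain ⟨s, a, e⟩ := h i 3 (by simp)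
    rw [h2, h2, h2] at e
    have := b i; have := b (i + 1); have := b (i + 2)
    rwa [lift hm (a := d i + d (i + 1) + d (i + 2)) (b := s) (by push_cast; linear_combination e) (by rw [abs_le]; omega) (D_bd _ a).1]
  have t4 : ∀ i, d i + d (i + 1) + d (i + 2) + d (i + 3) ∈ D := fun i => by
    obtain ⟨s, a, e⟩ := h i 4 (by simp)
    rw [h2, h2, h2, h2] at e
    have := b i; have := b (i + 1); have := b (i + 2); have := b (i + 3)
    rwa [lift hm (a := d i + d (i + 1) + d (i + 2) + d (i + 3)) (b := s) (by push_cast; linear_combination e) (by rw [abs_le]; omega) (D_bd _ a).1]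
  have k := fun i => fin _ (h1 i) _ (h1 _) _ (h1 _) (t3 i) _ (h1 _) (t3 (i + 1)) (t4 i) _ (h1 _)
    (t3 (i + 2)) (t4 (i + 1)) _ (h1 _) (t3 (i + 3)) (t4 (i + 2))
  have k2 : ∀ i, d i = d 0 := fun i => by
    induction i with
    | zero => rfl
    | succ i ih => rw [(k i).1, ih]
  obtain ⟨e, he⟩ : ∃ e : ℤˣ, d 0 = e := (k 0).2.elim (⟨1, ·⟩) (⟨-1, ·⟩)
  refine ⟨e, fun i => ?_⟩
  induction i with
  | zero => simp
  | succ i ih => rw [h2, ih, k2, he]; push_cast; ring

abbrev V (P : Finset ℕ) := Option (Σ p : P, ZMod p)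

def r {P : Finset ℕ} (u v : V P) : Prop :=
  (u = none ∧ v = none) ∨ ∃ p x, ∃ d ∈ D, u = some ⟨p, x⟩ ∧ v = some ⟨p, x + d⟩

theorem r_symm {P : Finset ℕ} {u v : V P} : r u v → r v u
  | .inl ⟨a, b⟩ => .inl ⟨b, a⟩
  | .inr ⟨p, x, d, h, a, b⟩ => .inr ⟨p, x + d, -d, (D_bd d h).2.2, b, by simp [a]⟩

def Φ {P : Finset ℕ} (c : ∀ p : P, Option (ℤˣ × ZMod p)) : V P → V P
  | none => none
  | some ⟨p, x⟩ => (c p).map fun t => ⟨p, (t.1 : ℤ) * x + t.2⟩

variable {P : Finset ℕ} (hP : ∀ p ∈ P, p.Prime ∧ 20 < p)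

theorem uD (e : ℤˣ) {d : ℤ} (h : d ∈ D) : e * d ∈ D := by
  rcases Int.units_eq_one_or e with rfl | rfl
  · simpa
  · simpa using (D_bd d h).2.2

theorem Φ_hom (c : ∀ p : P, Option (ℤˣ × ZMod p)) (u v : V P) : r u v → r (Φ c u) (Φ c v)
  | .inl ⟨a, b⟩ => .inl ⟨by rw [a]; rfl, by rw [b]; rfl⟩
  | .inr ⟨p, x, d, h, a, b⟩ => by
    subst a b
    simp only [Φ]
    rcases c p with _ | t
    · exact .inl ⟨rfl, rfl⟩
    · exact .inr ⟨p, _, _, uD t.1 h, rfl, by simp [mul_add, add_right_comm]⟩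

include hP

theorem Φ_inj : Function.Injective (Φ (P := P)) := fun c c' h => funext fun p => by
  have h0 := congrFun h (some ⟨p, 0⟩)
  have h1 := congrFun h (some ⟨p, 1⟩)
  simp only [Φ] at h0 h1
  revert h0 h1
  rcases c p with _ | ⟨a, b⟩ <;> rcases c' p with _ | ⟨a', b'⟩ <;> simp
  rintro rfl h
  refine ⟨Units.ext (lift (hP p p.2).2 (by simpa using h) ?_ ?_), rfl⟩
  · rcases Int.units_eq_one_or a with rfl | rfl <;> simp
  · rcases Int.units_eq_one_or a' with rfl | rfl <;> simp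

theorem Φ_sur (f : V P → V P) (h : ∀ u v, r u v → r (f u) (f v)) : ∃ c, Φ c = f := by
  have h0 : f none = none := by
    rcases h none none (.inl ⟨rfl, rfl⟩) with a | ⟨p, x, d, a, b, c⟩
    · exact a.1
    · have := b.symm.trans c
      simp only [Option.some.injEq, Sigma.mk.injEq, heq_eq_eq, true_and, left_eq_add] at this
      exact absurd (lift (hP p p.2).2 (b := 0) (by simpa using this) (by linarith [(D_bd d a).1])
        (by simp)) (D_bd d a).2.1
  have : ∀ p : P, ∃ c : Option (ℤˣ × ZMod p), ∀ x, f (some ⟨p, x⟩) =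
      c.map fun t => ⟨p, (t.1 : ℤ) * x + t.2⟩ := fun p => by
    have : NeZero p.1 := ⟨(hP p p.2).1.ne_zero⟩
    have st : ∀ i : ℕ, ∀ s ∈ [1, 3, 4], r (f (some ⟨p, i⟩)) (f (some ⟨p, (i + s : ℕ)⟩)) :=
      fun i s hs => h _ _ (.inr ⟨p, i, s, by revert s; decide, rfl, by simp⟩)
    rcases e : f (some ⟨p, (0 : ℕ)⟩) with _ | ⟨q, y⟩
    · refine ⟨none, fun x => ?_⟩
      obtain ⟨i, rfl⟩ := ZMod.natCast_zmod_surjective x
      induction i with
      | zero => exact e
      | succ i ih =>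
        rcases st i 1 (by simp) with a | ⟨p, x, d, a, b, c⟩
        · exact a.2
        · simp [b] at ih
    · choose g hg using show ∀ i : ℕ, ∃ y, f (some ⟨p, i⟩) = some ⟨q, y⟩ from fun i => by
        induction i with
        | zero => exact ⟨_, e⟩
        | succ i ih =>
          obtain ⟨z, ih⟩ := ih
          rcases st i 1 (by simp) with a | ⟨p, x, d, a, b, c⟩
          · simp [a.1] at ih
          · cases ih.symm.trans b; exact ⟨_, c⟩
      obtain ⟨u, hu⟩ := rig (hP q q.2).2 g fun i s hs => by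
        rcases st i s hs with a | ⟨p, x, d, a, b, c⟩
        · simp [hg] at a
        · cases (hg _).symm.trans b; exact ⟨d, a, by rw [hg] at c; simpa using c⟩
      obtain rfl : q = p := by
        have := hg p
        rw [ZMod.natCast_self, ← Nat.cast_zero, hg, hu p] at this
        refine Subtype.ext ((Nat.prime_dvd_prime_iff_eq (hP q q.2).1 (hP p p.2).1).1
          ((ZMod.natCast_eq_zero_iff _ _).1 ?_))
        rcases Int.units_eq_one_or u with rfl | rfl <;> simpa using this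
      refine ⟨some (u, g 0), fun x => ?_⟩
      obtain ⟨i, rfl⟩ := ZMod.natCast_zmod_surjective x
      rw [hg, hu]; rfl
  choose c hc using this
  refine ⟨c, funext ?_⟩
  rintro (_ | ⟨p, x⟩)
  exacts [h0.symm, (hc p x).symm]

theorem cards : Finite (V P) ∧ (∀ p ∈ P, p ≤ Nat.card (V P)) ∧
    (Nat.card {σ : Equiv.Perm (V P) // ∀ u v, r u v ↔ r (σ u) (σ v)} : ℝ) /
      Nat.card {f : V P → V P // ∀ u v, r u v → r (f u) (f v)} = ∏ p ∈ P, (2 * p / (2 * p + 1) : ℝ) := by
  have : ∀ p : P, NeZero p.1 := fun p => ⟨(hP p p.2).1.ne_zero⟩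
  have i : ∀ c : ∀ p : P, ℤˣ × ZMod p, Function.Injective (Φ fun p => some (c p)) := fun c => by
    rintro (_ | ⟨p, x⟩) (_ | ⟨q, y⟩) <;> simp [Φ]
    rintro rfl
    rcases Int.units_eq_one_or (c p).1 with e | e <;> simp [e]
  refine ⟨inferInstance, fun p hp => by
    simpa using Nat.card_le_card_of_injective (fun x : ZMod p => (some ⟨⟨p, hp⟩, x⟩ : V P))
      fun a b e => by simpa using e, ?_⟩
  rw [← Nat.card_eq_of_bijective (fun c => (⟨Φ c, Φ_hom c⟩ :
      {f : V P → V P // ∀ u v, r u v → r (f u) (f v)}))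
    ⟨fun a b e => Φ_inj hP (congrArg Subtype.val e), fun f => (Φ_sur hP f.1 f.2).imp fun _ h =>
      Subtype.ext h⟩, ← Nat.card_eq_of_bijective (fun c : ∀ p : P, ℤˣ × ZMod p => (⟨.ofBijective _
        (Finite.injective_iff_bijective.1 (i c)), fun u v => ⟨Φ_hom _ u v, ?_⟩⟩ :
          {σ : Equiv.Perm (V P) // ∀ u v, r u v ↔ r (σ u) (σ v)})) ⟨fun a b e => ?_, fun σ => ?_⟩]
  · simp only [Nat.card_pi, Finite.card_option, Nat.card_prod, Nat.card_zmod,
      Nat.card_eq_fintype_card (α := ℤˣ), Fintype.card_units_int]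
    push_cast
    rw [← prod_div_distrib, ← prod_coe_sort P]
  · rcases u with _ | ⟨p, x⟩ <;> rcases v with _ | ⟨q, y⟩ <;> simp only [Equiv.ofBijective_apply, Φ]
    · exact id
    · simp [r]
    · simp [r]
    · rintro (h | ⟨s, z, d, h, a, b⟩)
      · simp at h
      · cases a
        obtain rfl : q = p := congrArg Sigma.fst (Option.some_injective _ b)
        refine .inr ⟨q, x, _, uD (c q).1 h, rfl, ?_⟩
        simp only [Option.map_some, Option.some.injEq, Sigma.mk.injEq, heq_eq_eq, true_and] at b ⊢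
        rcases Int.units_eq_one_or (c q).1 with e | e <;> simp [e] at b ⊢ <;>
          [linear_combination b; linear_combination -b]
  · have := Φ_inj hP (congrArg (fun σ => (σ.1 : V P → V P)) e)
    exact funext fun p => Option.some_injective _ (congrFun this p)
  · obtain ⟨c, hc⟩ := Φ_sur hP σ.1 fun u v => (σ.2 u v).1
    choose t ht using show ∀ p, ∃ t, c p = some t from fun p => Option.ne_none_iff_exists'.1
      fun e => by simpa using σ.1.injective (show σ.1 (some ⟨p, 0⟩) = σ.1 none by simp [← hc, Φ, e])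
    exact ⟨t, Subtype.ext (Equiv.ext fun u => by rw [← hc, funext ht]; rfl)⟩

omit hP in
theorem dense (k : ℕ) {l : ℝ} (l0 : 0 < l) (l1 : l ≤ 1) : ∃ P : Finset ℕ, P.Nonempty ∧
    (∀ p ∈ P, p.Prime ∧ k < p) ∧ |∏ p ∈ P, (2 * p / (2 * p + 1) : ℝ) - l| ≤ 1 / (k + 1) := by
  classical
  obtain ⟨a, ha⟩ : ∃ a : ℕ → ℝ, ∀ p, a p = if p.Prime ∧ k < p then 1 / (2 * p + 1 : ℝ) else 0 :=
    ⟨_, fun _ => rfl⟩
  have a0 : ∀ p, 0 ≤ a p ∧ a p ≤ 1 / (k + 1) := fun p => by
    rw [ha]; split_ifs with h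
    · exact ⟨by positivity, by gcongr; linarith [(Nat.cast_lt (α := ℝ)).2 h.2, k.cast_nonneg (α := ℝ)]⟩
    · exact ⟨le_rfl, by positivity⟩
  have a1 : ∀ p, 0 ≤ 1 - a p := fun p => sub_nonneg.2 ((a0 p).2.trans (by
    rw [div_le_one (by positivity)]; simp))
  have ns : ¬ Summable a := fun h => not_summable_one_div_on_primes (by
    refine (summable_nat_add_iff (k + 1)).1 (.of_nonneg_of_le (fun p => Set.indicator_nonneg
      (fun _ _ => by positivity) _) (fun p => ?_) (((summable_nat_add_iff (k + 1)).2 h).mul_left 3))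
    rw [ha, Set.indicator_apply]
    by_cases e : (p + (k + 1)).Prime
    · have : (1 : ℝ) ≤ (p + (k + 1) : ℕ) := by exact_mod_cast e.pos
      rw [if_pos (by exact e), if_pos ⟨e, by omega⟩, mul_one_div,
        div_le_div_iff₀ (by positivity) (by positivity)]; linarith
    · simp [e])
  have : ∃ t, ∏ p ∈ range t, (1 - a p) < l := by
    obtain ⟨t, ht⟩ := (((not_summable_iff_tendsto_nat_atTop_of_nonneg fun p => (a0 p).1).1
      ns).eventually_gt_atTop (-Real.log l)).exists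
    refine ⟨t, (prod_le_prod (fun p _ => a1 p) fun p _ => Real.one_sub_le_exp_neg _).trans_lt ?_⟩
    rw [← Real.exp_sum, sum_neg_distrib, ← Real.lt_log_iff_exp_lt l0]; linarith
  have h1 := Nat.find_spec this
  have e : ∀ t, ∏ p ∈ range t with p.Prime ∧ k < p, (2 * p / (2 * p + 1) : ℝ) =
      ∏ p ∈ range t, (1 - a p) := fun t => by
    rw [prod_filter]; refine prod_congr rfl fun p _ => ?_
    rw [ha]; split_ifs
    · field_simp; ring
    · simp
  refine ⟨{p ∈ range (Nat.find this) | p.Prime ∧ k < p}, nonempty_iff_ne_empty.2 fun h => ?_,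
    fun p h => (mem_filter.1 h).2, ?_⟩
  · rw [← e, h, prod_empty] at h1; linarith
  · rw [e]
    rcases ht : Nat.find this with _ | t
    · simp [ht] at h1; linarith
    have h2 := not_lt.1 (Nat.find_min this (m := t) (by omega))
    rw [ht] at h1
    rw [abs_of_neg (by linarith), prod_range_succ]
    nlinarith [mul_le_mul_of_nonneg_right h2 (a1 t), a0 t]

end Pool.Agent.H.MP_e2735d_co
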